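import Mathlib
import Pool.Agent.H650R2.SqMain

set_option autoImplicit false

/-!
# The infinite cardinals `λ` with `λ² → (λ², 3)²`
-/

namespace Pool.Agent.Results.MP_af714c_lc.Characterization

open Cardinal Ordinal Pool.Agent.H650R2.Sq

universe u

/-- Assume the generalized continuum hypothesis, and (only for the cofinality of `λ`, if that is an
inaccessible cardinal `κ` with `κ ↛ (κ)²₂`) that `κ` carries a nonreflecting stationary set with a
diamond sequence. Both axioms hold in the constructible universe. Then `λ² → (λ², 3)²` holds if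
and only if `cf λ → (cf λ)²₂`, that is, if and only if the cofinality of `λ` is `ω` or a weakly
compact cardinal. -/
theorem result (gch : ∀ κ : Cardinal.{u}, ℵ₀ ≤ κ → (2 : Cardinal.{u}) ^ κ = Order.succ κ)
    (lam : Cardinal.{u}) (hlam : ℵ₀ ≤ lam)
    (hd : lam.ord.cof.IsInaccessible →
      ¬ Arrow lam.ord.cof.ord lam.ord.cof.ord lam.ord.cof.ord → NonreflectingDiamond lam.ord.cof) :
    Arrow (lam.ord * lam.ord) (lam.ord * lam.ord) 3 ↔
      Arrow lam.ord.cof.ord lam.ord.cof.ord lam.ord.cof.ord :=
  main gch lam hlam hd

end Pool.Agent.Results.MP_af714c_lc.Characterization
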